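import Mathlib

set_option autoImplicit false

namespace Pool.Agent.Results.MP_75c0e8_co.WeakRec

open Finset

variable {A B : Type}

/-- `f` and `g` are similar: `f(a₁,…,aₙ) = g(a_{τ(1)},…,a_{τ(n)})` for some permutation `τ` -/
def Sim {n : ℕ} (f g : (Fin n → A) → B) : Prop :=
  ∃ τ : Equiv.Perm (Fin n), ∀ a, f a = g (a ∘ τ)

theorem Sim.refl {n : ℕ} (f : (Fin n → A) → B) : Sim f f := ⟨1, fun _ => rfl⟩

theorem Sim.symm {n : ℕ} {f g : (Fin n → A) → B} (h : Sim f g) : Sim g f := by
  obtain ⟨τ, h⟩ := h
  refine ⟨τ⁻¹, fun a => ?_⟩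
  rw [h]
  congr 1
  funext i
  simp

theorem Sim.trans {n : ℕ} {f g k : (Fin n → A) → B} (h : Sim f g) (h' : Sim g k) : Sim f k := by
  obtain ⟨τ, h⟩ := h
  obtain ⟨τ', h'⟩ := h'
  refine ⟨τ * τ', fun a => ?_⟩
  rw [h, h']
  rfl

/-- similarity as an equivalence relation on functions of arity `n` -/
def simSetoid (A B : Type) (n : ℕ) : Setoid ((Fin n → A) → B) :=
  ⟨Sim, ⟨Sim.refl, Sim.symm, Sim.trans⟩⟩

/-- The identification minor `f_I`, `I = {i, j}`, `i < j`, of a function `f` of arity `n + 1`:
`f_I (a₁,…,aₙ) = f (a₁,…,a_{j-1},a_i,a_j,…,aₙ)`. (As `i < j`, the index `i` is in `Fin n`.) -/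
def minor {n : ℕ} (f : (Fin (n + 1) → A) → B) (i : Fin n) (j : Fin (n + 1)) :
    (Fin n → A) → B := fun a => f (j.insertNth (α := fun _ => A) (a i) a)

/-- The deck: the multiset of the similarity classes of the minors `f_I`, over all `I = {i, j}`
with `i < j`. -/
def deck {n : ℕ} (f : (Fin (n + 1) → A) → B) : Multiset (Quotient (simSetoid A B n)) :=
  (univ.filter (fun p : Fin n × Fin (n + 1) => p.1.castSucc < p.2)).val.map
    (fun p => Quotient.mk (simSetoid A B n) (minor f p.1 p.2))

/-- the content of a tuple: the multiset of its entries -/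
def content {n : ℕ} (a : Fin n → A) : Multiset A := (univ : Finset (Fin n)).val.map a

open Classical in
/-- the list of the singletons of a tuple (the entries that occur exactly once), in their order
of occurrence -/
noncomputable def sing {n : ℕ} (a : Fin n → A) : List A :=
  (List.ofFn a).filter (fun x => decide ((content a).count x = 1))

/-- `f` is determined by content and singletons -/
def DetCS {n : ℕ} (f : (Fin n → A) → B) : Prop :=
  ∀ a b, content a = content b → sing a = sing b → f a = f b

/-- The class of functions `A^(n+1) → B` determined by content and singletons is weakly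
reconstructible: two of its members with equal decks are similar. -/
def WeaklyReconstructible (A B : Type) (n : ℕ) : Prop :=
  ∀ f g : (Fin (n + 1) → A) → B, DetCS f → DetCS g → deck f = deck g → Sim f g

/-! ### monotone subsets -/

theorem exists_mono {m : ℕ} (σ : Fin m → Fin m) (hσ : Function.Injective σ) (a b : ℕ) :
    ∀ S : Finset (Fin m), 2 ^ (a + b) ≤ S.card →
      ∃ T ⊆ S, (T.card = a ∧ StrictMonoOn σ T) ∨ (T.card = b ∧ StrictAntiOn σ T) := by
  induction a generalizing b with
  | zero =>
    intro S _
    exact ⟨∅, by simp, Or.inl ⟨by simp, by intro x hx; simp at hx⟩⟩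
  | succ a iha =>
    induction b with
    | zero =>
      intro S _
      exact ⟨∅, by simp, Or.inr ⟨by simp, by intro x hx; simp at hx⟩⟩
    | succ b ihb =>
      intro S hS
      have hne : S.Nonempty := by
        rw [← card_pos]
        have : 0 < 2 ^ (a + 1 + (b + 1)) := by positivity
        omega
      set x := S.min' hne with hx
      have hxS : x ∈ S := S.min'_mem hne
      have hlt : ∀ y ∈ S.erase x, x < y := fun y hy => S.min'_lt_of_mem_erase_min' hne hy
      set U := (S.erase x).filter (fun y => σ x < σ y) with hU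
      set V := (S.erase x).filter (fun y => ¬ σ x < σ y) with hV
      have hUV : U.card + V.card = S.card - 1 := by
        rw [hU, hV, card_filter_add_card_filter_not, card_erase_of_mem hxS]
      have hp : 2 ^ (a + 1 + (b + 1)) = 2 * 2 ^ (a + b + 1) := by ring
      rcases le_or_gt (2 ^ (a + b + 1)) U.card with h | h
      · obtain ⟨T, hT, hT'⟩ := iha (b + 1) U (by rw [show a + (b + 1) = a + b + 1 by ring]; exact h)
        have hTS : T ⊆ S := hT.trans ((filter_subset _ _).trans (erase_subset _ _))
        rcases hT' with ⟨hc, hm⟩ | hT'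
        · refine ⟨insert x T, ?_, Or.inl ⟨?_, ?_⟩⟩
          · exact insert_subset hxS hTS
          · rw [card_insert_of_notMem, hc]
            intro hxT
            have := hlt x ((mem_filter.mp (hT hxT)).1)
            exact lt_irrefl _ this
          · intro y hy z hz hyz
            simp only [coe_insert, Set.mem_insert_iff, mem_coe] at hy hz
            rcases hy with rfl | hy
            · rcases hz with rfl | hz
              · exact absurd hyz (lt_irrefl _)
              · exact (mem_filter.mp (hT hz)).2
            · rcases hz with rfl | hz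
              · have := hlt y ((mem_filter.mp (hT hy)).1)
                exact absurd hyz (lt_asymm this)
              · exact hm hy hz hyz
        · exact ⟨T, hTS, Or.inr hT'⟩
      · have hV' : 2 ^ (a + 1 + b) ≤ V.card := by
          rw [show a + 1 + b = a + b + 1 by ring]
          omega
        obtain ⟨T, hT, hT'⟩ := ihb V hV'
        have hTS : T ⊆ S := hT.trans ((filter_subset _ _).trans (erase_subset _ _))
        have hTV : ∀ y ∈ T, σ y < σ x := by
          intro y hy
          have h1 := mem_filter.mp (hT hy)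
          have h2 : x ≠ y := ne_of_lt (hlt y h1.1)
          exact lt_of_le_of_ne (not_lt.mp h1.2) (fun h => h2 (hσ h).symm)
        rcases hT' with hT' | ⟨hc, hm⟩
        · exact ⟨T, hTS, Or.inl hT'⟩
        · refine ⟨insert x T, ?_, Or.inr ⟨?_, ?_⟩⟩
          · exact insert_subset hxS hTS
          · rw [card_insert_of_notMem, hc]
            intro hxT
            have := hlt x ((mem_filter.mp (hT hxT)).1)
            exact lt_irrefl _ this
          · intro y hy z hz hyz
            simp only [coe_insert, Set.mem_insert_iff, mem_coe] at hy hz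
            rcases hy with rfl | hy
            · rcases hz with rfl | hz
              · exact absurd hyz (lt_irrefl _)
              · exact hTV z hz
            · rcases hz with rfl | hz
              · have := hlt y ((mem_filter.mp (hT hy)).1)
                exact absurd hyz (lt_asymm this)
              · exact hm hy hz hyz

/-! ### content and singletons -/

theorem content_comp {n : ℕ} (a : Fin n → A) (π : Equiv.Perm (Fin n)) :
    content (a ∘ π) = content a := by
  unfold content
  rw [← Multiset.map_map]
  congr 1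
  exact Multiset.map_univ_val_equiv π

open Classical in
/-- the entry at position `t` is a singleton -/
def IsSing {n : ℕ} (a : Fin n → A) (t : Fin n) : Prop := (content a).count (a t) = 1

theorem isSing_unique {n : ℕ} {a : Fin n → A} {s t : Fin n} (h : IsSing a t) (hst : a s = a t) :
    s = t := by
  classical
  by_contra hne
  unfold IsSing content at h
  rw [Multiset.count_map] at h
  have h1 : 1 < ((univ : Finset (Fin n)).filter (fun x => a t = a x)).card := by
    rw [one_lt_card]
    exact ⟨s, by simp [hst], t, by simp, hne⟩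
  have h2 : ((univ : Finset (Fin n)).filter (fun x => a t = a x)).card
      = (Multiset.filter (fun x => a t = a x) (univ : Finset (Fin n)).val).card := rfl
  rw [h2] at h1
  omega

/-- composing with a permutation that is increasing on the singleton positions does not change
the list of singletons -/
theorem sing_comp {n : ℕ} (a : Fin n → A) (π : Equiv.Perm (Fin n))
    (h : ∀ s t, s < t → IsSing a (π s) → IsSing a (π t) → π s < π t) :
    sing (a ∘ π) = sing a := by
  classical
  unfold sing
  rw [content_comp]
  have h1 : List.ofFn (a ∘ π) = ((List.finRange n).map π).map a := by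
    rw [List.map_map, List.ofFn_eq_map]
  have h2 : List.ofFn a = (List.finRange n).map a := by
    rw [List.ofFn_eq_map]
  rw [h1, h2, List.filter_map, List.filter_map, List.filter_map]
  have hperm : (((List.finRange n).filter (((fun x => decide ((content a).count x = 1)) ∘ a) ∘ π)).map
      π).Perm ((List.finRange n).filter ((fun x => decide ((content a).count x = 1)) ∘ a)) := by
    rw [List.perm_ext_iff_of_nodup]
    · intro t
      simp only [List.mem_map, List.mem_filter, List.mem_finRange, true_and, Function.comp]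
      constructor
      · rintro ⟨s, hs, rfl⟩
        exact hs
      · intro ht
        exact ⟨π.symm t, by simpa using ht, by simp⟩
    · exact ((List.nodup_finRange n).filter _).map π.injective
    · exact (List.nodup_finRange n).filter _
  refine congrArg (List.map a) (List.Perm.eq_of_pairwise' (r := (· < ·)) ?_ ?_ hperm)
  · rw [List.pairwise_map]
    have := (List.pairwise_lt_finRange n).filter
      (((fun x => decide ((content a).count x = 1)) ∘ a) ∘ π)
    refine this.imp_of_mem ?_
    intro s t hs ht hst
    rw [List.mem_filter] at hs ht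
    apply h s t hst
    · simpa [IsSing] using hs.2
    · simpa [IsSing] using ht.2
  · exact (List.pairwise_lt_finRange n).filter _

theorem insertNth_injective {m : ℕ} {X : Type} (j : Fin (m + 1)) (q : X) (ι : Fin m → X)
    (hι : Function.Injective ι) (hq : ∀ t, ι t ≠ q) :
    Function.Injective (j.insertNth (α := fun _ => X) q ι) := by
  intro s t hst
  rcases Fin.eq_self_or_eq_succAbove j s with hs | ⟨s', rfl⟩ <;>
    rcases Fin.eq_self_or_eq_succAbove j t with ht | ⟨t', rfl⟩
  · rw [hs, ht]
  · subst hs
    simp at hst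
    exact absurd hst.symm (hq t')
  · subst ht
    simp at hst
    exact absurd hst (hq s')
  · simp at hst
    rw [hι hst]

/-- the permutation `insertNth j q ι` -/
noncomputable def mkPerm {m : ℕ} (j q : Fin (m + 1)) (ι : Fin m → Fin (m + 1))
    (hι : Function.Injective ι) (hq : ∀ t, ι t ≠ q) : Equiv.Perm (Fin (m + 1)) :=
  Equiv.ofBijective (j.insertNth (α := fun _ => Fin (m + 1)) q ι)
    (Finite.injective_iff_bijective.mp (insertNth_injective j q ι hι hq))

theorem comp_mkPerm {m : ℕ} (a : Fin (m + 1) → A) (j q : Fin (m + 1)) (ι : Fin m → Fin (m + 1))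
    (hι : Function.Injective ι) (hq : ∀ t, ι t ≠ q) :
    a ∘ (mkPerm j q ι hι hq) = j.insertNth (α := fun _ => A) (a q) (a ∘ ι) := by
  funext s
  rcases Fin.eq_self_or_eq_succAbove j s with hs | ⟨s', rfl⟩
  · subst hs; simp [mkPerm]
  · simp [mkPerm]

/-- the data attached to a tuple `a`: all positions but one, `q`, are the values of `ι`; the
entries at `ι z`, `ι u` equal the entry at `q`; the singleton positions are increasing values of
`ι` on `T` -/
structure Data {m : ℕ} (a : Fin (m + 1) → A) (T : Finset (Fin m)) (z u : Fin m)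
    (q : Fin (m + 1)) (ι : Fin m → Fin (m + 1)) : Prop where
  inj : Function.Injective ι
  ne : ∀ t, ι t ≠ q
  hz : a (ι z) = a q
  hu : a (ι u) = a q
  mem : ∀ t, IsSing a (ι t) → t ∈ T
  mono : ∀ t t', IsSing a (ι t) → IsSing a (ι t') → t < t' → ι t < ι t'

theorem exists_data [Fintype A] {m : ℕ} (a : Fin (m + 1) → A) (T : Finset (Fin m)) (z u : Fin m)
    (hm : 2 * Fintype.card A < m + 1) (hT : T.card = Fintype.card A) (hzT : z ∉ T) (huT : u ∉ T) :
    ∃ q ι, Data a T z u q ι := by
  classical
  obtain ⟨c, _, hc⟩ := exists_lt_card_fiber_of_mul_lt_card_of_maps_to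
    (s := (univ : Finset (Fin (m + 1)))) (t := (univ : Finset A)) (f := a) (n := 2)
    (fun _ _ => mem_univ _) (by simp; omega)
  obtain ⟨q1, hq1, q2, hq2, q3, hq3, h12, h13, h23⟩ := two_lt_card.mp hc
  simp only [mem_filter, mem_univ, true_and] at hq1 hq2 hq3
  set P : Finset (Fin (m + 1)) := univ.filter (fun t => IsSing a t) with hP
  have hPmem : ∀ t, t ∈ P ↔ IsSing a t := by intro t; simp [hP]
  have hPc : P.card ≤ T.card := by
    rw [hT, ← card_univ]
    apply card_le_card_of_injOn a (fun _ _ => mem_univ _)
    intro s hs t ht hst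
    exact isSing_unique ((hPmem t).mp ht) hst
  obtain ⟨T', hT', hT'c⟩ := exists_subset_card_eq hPc
  have hqP : ∀ q q' : Fin (m + 1), q ≠ q' → a q = a q' → ¬ IsSing a q := by
    intro q q' hne h hs
    exact hne (isSing_unique hs h.symm).symm
  have n1 : q1 ∉ P := by rw [hPmem]; exact hqP q1 q2 h12 (hq1.trans hq2.symm)
  have n2 : q2 ∉ P := by rw [hPmem]; exact hqP q2 q1 h12.symm (hq2.trans hq1.symm)
  have n3 : q3 ∉ P := by rw [hPmem]; exact hqP q3 q1 h13.symm (hq3.trans hq1.symm)
  let θ : T' ≃o P := (T'.orderIsoOfFin hT'c).symm.trans (P.orderIsoOfFin rfl)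
  let f0 : Fin m → Fin (m + 1) := fun t =>
    if h : t ∈ T' then θ ⟨t, h⟩ else if t = z then q1 else q3
  have f0T : ∀ t (h : t ∈ T'), f0 t = θ ⟨t, h⟩ := by intro t h; simp [f0, h]
  have hzT' : z ∉ T' := fun h => hzT (hT' h)
  have huT' : u ∉ T' := fun h => huT (hT' h)
  have f0z : f0 z = q1 := by simp [f0, hzT']
  have f0u : f0 u = q1 ∨ f0 u = q3 := by
    by_cases h : u = z
    · left; simp [f0, h, hzT']
    · right; simp [f0, huT', h]
  have f0u' : u ≠ z → f0 u = q3 := by intro h; simp [f0, huT', h]
  have f0P : ∀ t ∈ T', f0 t ∈ P := by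
    intro t h; rw [f0T t h]; exact (θ ⟨t, h⟩).2
  let D : Finset (Fin m) := insert z (insert u T')
  obtain ⟨g, hg⟩ := exists_equiv_extend_of_card_eq (α := Fin m) (β := Fin (m + 1))
    (t := univ.erase q2) (by rw [card_erase_of_mem (mem_univ _)]; simp) (s := D) (f := f0)
    (by
      intro y hy
      rw [mem_image] at hy
      obtain ⟨t, ht, rfl⟩ := hy
      rw [mem_erase]
      refine ⟨?_, mem_univ _⟩
      simp only [D, mem_insert] at ht
      rcases ht with rfl | rfl | ht
      · rw [f0z]; exact h12
      · rcases f0u with h | h <;> rw [h]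
        · exact h12
        · exact h23.symm
      · intro h
        exact n2 (h ▸ f0P t ht))
    (by
      intro s hs t ht hst
      simp only [D, coe_insert, Set.mem_insert_iff, mem_coe] at hs ht
      by_cases hs' : s ∈ T'
      · by_cases ht' : t ∈ T'
        · rw [f0T s hs', f0T t ht'] at hst
          have := θ.injective (Subtype.ext hst)
          exact congrArg Subtype.val this
        · exfalso
          have h1 := f0P s hs'
          rw [hst] at h1
          simp only [f0, ht', dif_neg, not_false_iff] at h1
          split_ifs at h1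
          · exact n1 h1
          · exact n3 h1
      · by_cases ht' : t ∈ T'
        · exfalso
          have h1 := f0P t ht'
          rw [← hst] at h1
          simp only [f0, hs', dif_neg, not_false_iff] at h1
          split_ifs at h1
          · exact n1 h1
          · exact n3 h1
        · simp only [f0, hs', ht', dif_neg, not_false_iff] at hst
          have hs2 : s = z ∨ s = u := by tauto
          have ht2 : t = z ∨ t = u := by tauto
          by_cases h1 : s = z
          · by_cases h2 : t = z
            · rw [h1, h2]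
            · rw [if_pos h1, if_neg h2] at hst
              exact absurd hst h13
          · by_cases h2 : t = z
            · rw [if_neg h1, if_pos h2] at hst
              exact absurd hst.symm h13
            · rw [hs2.resolve_left h1, ht2.resolve_left h2])
  have hgD : ∀ t ∈ D, (g t : Fin (m + 1)) = f0 t := hg
  have hinj : Function.Injective (fun t => (g t : Fin (m + 1))) :=
    Subtype.val_injective.comp g.injective
  have hsing : ∀ t, IsSing a (g t) → t ∈ T' := by
    intro t ht
    have h1 : (g t : Fin (m + 1)) ∈ P := (hPmem _).mpr ht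
    set t' := θ.symm ⟨g t, h1⟩ with ht'
    have h2 : (g t'.1 : Fin (m + 1)) = g t := by
      rw [hgD t'.1 (by simp [D, t'.2]), f0T t'.1 t'.2]
      change ((θ t' : P) : Fin (m + 1)) = g t
      rw [ht', θ.apply_symm_apply]
    rw [← hinj h2]
    exact t'.2
  refine ⟨q2, fun t => g t, hinj, ?_, ?_, ?_, ?_, ?_⟩
  · intro t
    exact (mem_erase.mp (g t).2).1
  · rw [hgD z (by simp [D]), f0z, hq1, hq2]
  · rw [hgD u (by simp [D])]
    rcases f0u with h | h <;> rw [h]
    · rw [hq1, hq2]
    · rw [hq3, hq2]
  · intro t ht
    exact hT' (hsing t ht)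
  · intro t t' ht ht' hlt
    have h1 := hsing t ht
    have h2 := hsing t' ht'
    change (g t : Fin (m + 1)) < g t'
    rw [hgD t (by simp [D, h1]), hgD t' (by simp [D, h2]), f0T t h1, f0T t' h2]
    exact θ.strictMono hlt

theorem content_data {m : ℕ} {a : Fin (m + 1) → A} {T : Finset (Fin m)} {z u : Fin m}
    {q : Fin (m + 1)} {ι : Fin m → Fin (m + 1)} (h : Data a T z u q ι) (τ : Equiv.Perm (Fin m))
    (i : Fin m) (j : Fin (m + 1)) (hi : a (ι (τ i)) = a q) :
    content (j.insertNth (α := fun _ => A) (((a ∘ ι) ∘ τ) i) ((a ∘ ι) ∘ τ)) = content a := by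
  have h1 : ((a ∘ ι) ∘ τ) i = a q := hi
  rw [h1]
  have := comp_mkPerm a j q (ι ∘ τ) (h.inj.comp τ.injective) (fun t => h.ne _)
  rw [show (a ∘ ι) ∘ τ = a ∘ (ι ∘ τ) from rfl, ← this, content_comp]

theorem sing_data_mono {m : ℕ} {a : Fin (m + 1) → A} {T : Finset (Fin m)} {z u : Fin m}
    {q : Fin (m + 1)} {ι : Fin m → Fin (m + 1)} (h : Data a T z u q ι) (τ : Equiv.Perm (Fin m))
    (hτ : StrictMonoOn τ.symm T)
    (i : Fin m) (j : Fin (m + 1)) (hi : a (ι (τ i)) = a q) :
    sing (j.insertNth (α := fun _ => A) (((a ∘ ι) ∘ τ) i) ((a ∘ ι) ∘ τ)) = sing a := by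
  have h1 : ((a ∘ ι) ∘ τ) i = a q := hi
  rw [h1]
  have := comp_mkPerm a j q (ι ∘ τ) (h.inj.comp τ.injective) (fun t => h.ne _)
  rw [show (a ∘ ι) ∘ τ = a ∘ (ι ∘ τ) from rfl, ← this]
  have hq : ¬ IsSing a q := by
    intro hs
    exact h.ne z (isSing_unique hs h.hz)
  apply sing_comp
  intro s t hst hs ht
  rcases Fin.eq_self_or_eq_succAbove j s with hs' | ⟨s', rfl⟩
  · subst hs'
    simp [mkPerm] at hs
    exact absurd hs hq
  rcases Fin.eq_self_or_eq_succAbove j t with ht' | ⟨t', rfl⟩
  · subst ht'
    simp [mkPerm] at ht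
    exact absurd ht hq
  rw [Fin.succAbove_lt_succAbove_iff] at hst
  simp only [mkPerm, Equiv.ofBijective_apply, Fin.insertNth_apply_succAbove,
    Function.comp] at hs ht ⊢
  apply h.mono _ _ hs ht
  rw [← hτ.lt_iff_lt (h.mem _ hs) (h.mem _ ht)]
  simpa using hst

theorem sing_data_anti {m : ℕ} {a : Fin (m + 1) → A} {T : Finset (Fin m)} {z u : Fin m}
    {q : Fin (m + 1)} {ι : Fin m → Fin (m + 1)} (h : Data a T z u q ι) (τ : Equiv.Perm (Fin m))
    (hτ : StrictAntiOn τ.symm T)
    (i : Fin m) (j : Fin (m + 1)) (hi : a (ι (τ i)) = a q) :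
    sing (j.insertNth (α := fun _ => A) (((a ∘ ι) ∘ τ) i) ((a ∘ ι) ∘ τ))
      = sing (a ∘ Fin.revPerm) := by
  have h1 : ((a ∘ ι) ∘ τ) i = a q := hi
  rw [h1]
  have := comp_mkPerm a j q (ι ∘ τ) (h.inj.comp τ.injective) (fun t => h.ne _)
  rw [show (a ∘ ι) ∘ τ = a ∘ (ι ∘ τ) from rfl, ← this]
  have hq : ¬ IsSing a q := by
    intro hs
    exact h.ne z (isSing_unique hs h.hz)
  have e1 : a ∘ (mkPerm j q (ι ∘ τ) (h.inj.comp τ.injective) (fun t => h.ne _))
      = (a ∘ Fin.revPerm) ∘ ((mkPerm j q (ι ∘ τ) (h.inj.comp τ.injective)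
        (fun t => h.ne _)).trans Fin.revPerm) := by
    funext s
    simp
  have e2 : ∀ s, IsSing (a ∘ Fin.revPerm) s ↔ IsSing a (Fin.rev s) := by
    intro s
    unfold IsSing
    rw [content_comp]
    rfl
  rw [e1]
  apply sing_comp
  intro s t hst hs ht
  rw [e2] at hs ht
  simp only [Equiv.trans_apply, Fin.revPerm_apply, Fin.rev_rev] at hs ht ⊢
  rw [Fin.rev_lt_rev]
  rcases Fin.eq_self_or_eq_succAbove j s with hs' | ⟨s', rfl⟩
  · subst hs'
    simp [mkPerm] at hs
    exact absurd hs hq
  rcases Fin.eq_self_or_eq_succAbove j t with ht' | ⟨t', rfl⟩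
  · subst ht'
    simp [mkPerm] at ht
    exact absurd ht hq
  rw [Fin.succAbove_lt_succAbove_iff] at hst
  simp only [mkPerm, Equiv.ofBijective_apply, Fin.insertNth_apply_succAbove,
    Function.comp] at hs ht ⊢
  apply h.mono _ _ ht hs
  rw [← hτ.lt_iff_gt (h.mem _ hs) (h.mem _ ht)]
  simpa using hst

theorem finite_case [Fintype A] (m : ℕ) (hm : 4 ^ Fintype.card A + 2 * Fintype.card A + 2 ≤ m) :
    WeaklyReconstructible A B m := by
  classical
  intro f g hf hg hdeck
  have hpos : 0 < 4 ^ Fintype.card A := by positivity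
  have hm0 : 0 < m := by omega
  let i0 : Fin m := ⟨0, hm0⟩
  let j0 : Fin (m + 1) := ⟨1, by omega⟩
  have h01 : i0.castSucc < j0 := by
    rw [Fin.lt_def]; simp [i0, j0]
  have h1 : Quotient.mk (simSetoid A B m) (minor f i0 j0) ∈ deck f := by
    unfold deck
    rw [Multiset.mem_map]
    refine ⟨(i0, j0), ?_, rfl⟩
    rw [mem_val, mem_filter]
    exact ⟨mem_univ _, h01⟩
  rw [hdeck] at h1
  unfold deck at h1
  rw [Multiset.mem_map] at h1
  obtain ⟨⟨i, j⟩, _, hij⟩ := h1
  have hsim : Sim (minor g i j) (minor f i0 j0) := Quotient.exact hij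
  obtain ⟨τ, hτ⟩ := hsim.symm
  have hτ' : ∀ b : Fin m → A, f (j0.insertNth (α := fun _ => A) (b i0) b)
      = g (j.insertNth (α := fun _ => A) ((b ∘ τ) i) (b ∘ τ)) := hτ
  -- a monotone set of positions
  have hS : 2 ^ (Fintype.card A + Fintype.card A) ≤
      (((univ : Finset (Fin m)).erase i0).erase (τ i)).card := by
    have h2 := pred_card_le_card_erase (s := (univ : Finset (Fin m)).erase i0) (a := τ i)
    have h3 := card_erase_of_mem (mem_univ i0)
    rw [h3] at h2
    simp only [card_univ, Fintype.card_fin] at h2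
    have h4 : 2 ^ (Fintype.card A + Fintype.card A) = 4 ^ Fintype.card A := by
      rw [← two_mul, pow_mul]; norm_num
    omega
  obtain ⟨T, hTS, hT⟩ := exists_mono τ.symm τ.symm.injective _ _ _ hS
  have hzT : i0 ∉ T := by
    intro h
    have := hTS h
    simp at this
  have huT : τ i ∉ T := by
    intro h
    have := hTS h
    simp at this
  have hTc : T.card = Fintype.card A := by
    rcases hT with h | h <;> exact h.1
  rcases hT with ⟨_, hmono⟩ | ⟨_, hanti⟩
  · refine ⟨1, fun a => ?_⟩
    obtain ⟨q, ι, hD⟩ := exists_data a T i0 (τ i) (by omega) hTc hzT huT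
    have e1 : f (j0.insertNth (α := fun _ => A) ((a ∘ ι) i0) (a ∘ ι)) = f a := by
      apply hf
      · exact content_data hD 1 i0 j0 hD.hz
      · exact sing_data_mono hD 1 (by intro x _ y _ hxy; exact hxy) i0 j0 hD.hz
    have e2 : g (j.insertNth (α := fun _ => A) (((a ∘ ι) ∘ τ) i) ((a ∘ ι) ∘ τ)) = g a := by
      apply hg
      · exact content_data hD τ i j hD.hu
      · exact sing_data_mono hD τ hmono i j hD.hu
    rw [← e1, hτ', e2]
    rfl
  · refine ⟨Fin.revPerm, fun a => ?_⟩
    obtain ⟨q, ι, hD⟩ := exists_data a T i0 (τ i) (by omega) hTc hzT huT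
    have e1 : f (j0.insertNth (α := fun _ => A) ((a ∘ ι) i0) (a ∘ ι)) = f a := by
      apply hf
      · exact content_data hD 1 i0 j0 hD.hz
      · exact sing_data_mono hD 1 (by intro x _ y _ hxy; exact hxy) i0 j0 hD.hz
    have e2 : g (j.insertNth (α := fun _ => A) (((a ∘ ι) ∘ τ) i) ((a ∘ ι) ∘ τ))
        = g (a ∘ Fin.revPerm) := by
      apply hg
      · rw [content_comp]; exact content_data hD τ i j hD.hu
      · exact sing_data_anti hD τ hanti i j hD.hu
    rw [← e1, hτ', e2]

/-- Answer to Q2: if `A` is finite, the class of functions `A^(n+1) → B` determined by content and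
singletons is weakly reconstructible as soon as `n ≥ 4^|A| + 2|A| + 2`; if `A` is infinite and `B`
has at least two elements, it is not weakly reconstructible for any arity `n + 1 ≥ 2`. -/
theorem result (A B : Type) :
    (Finite A → ∀ n : ℕ, 4 ^ Nat.card A + 2 * Nat.card A + 2 ≤ n →
      WeaklyReconstructible A B n) ∧
    (Infinite A → Nontrivial B → ∀ n : ℕ, 1 ≤ n → ¬ WeaklyReconstructible A B n) := by
  classical
  constructor
  · intro hA n hn
    have := Fintype.ofFinite A
    rw [Nat.card_eq_fintype_card] at hn
    exact finite_case n hn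
  · intro hA hB n hn1 hWR
    obtain ⟨b0, b1, hb⟩ := hB
    let f : (Fin (n + 1) → A) → B := fun _ => b0
    let g : (Fin (n + 1) → A) → B := fun a => if Function.Injective a then b1 else b0
    have hnd : ∀ a : Fin (n + 1) → A, Function.Injective a ↔ (content a).Nodup := by
      intro a
      unfold content
      rw [Multiset.nodup_map_iff_inj_on (univ : Finset (Fin (n + 1))).nodup]
      simp [Function.Injective]
    have hsim : Sim f g := by
      apply hWR f g
      · intro a b _ _; rfl
      · intro a b hab _
        simp only [g, hnd, hab]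
      · unfold deck
        apply Multiset.map_congr rfl
        rintro ⟨i, j⟩ hij
        rw [mem_val, mem_filter] at hij
        congr 1
        funext a
        have : ¬ Function.Injective (j.insertNth (α := fun _ => A) (a i) a) := by
          intro h
          have h1 : j.insertNth (α := fun _ => A) (a i) a j
              = j.insertNth (α := fun _ => A) (a i) a (j.succAbove i) := by simp
          exact Fin.succAbove_ne j i (h h1).symm
        simp [minor, f, g, this]
    obtain ⟨τ, hτ⟩ := hsim
    let a : Fin (n + 1) → A := fun i => Infinite.natEmbedding A (i : ℕ)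
    have ha : Function.Injective a := by
      intro i j hij
      exact Fin.ext ((Infinite.natEmbedding A).injective hij)
    have h1 := hτ a
    have h2 : Function.Injective (a ∘ τ) := ha.comp τ.injective
    simp only [f, g, h2, if_true] at h1
    exact hb h1

end Pool.Agent.Results.MP_75c0e8_co.WeakRec
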